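import Mathlib

set_option autoImplicit false
open MeasureTheory Filter Topology Set
open scoped ENNReal NNReal InnerProductSpace

namespace Pool.Agent.J4.H76.HS

abbrev E := EuclideanSpace ℝ (Fin 3)

lemma fr3 : Module.finrank ℝ E = 3 := finrank_euclideanSpace_fin

lemma norm_gradient (ψ : E → ℝ) (x : E) : ‖gradient ψ x‖ = ‖fderiv ℝ ψ x‖ := by
  unfold gradient
  rw [LinearIsometryEquiv.norm_map]

lemma inner_gradient (ψ : E → ℝ) (x v : E) : inner ℝ (gradient ψ x) v = fderiv ℝ ψ x v := by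
  unfold gradient
  rw [InnerProductSpace.toDual_symm_apply]

lemma eLpNorm_gradient (ψ : E → ℝ) (p : ℝ≥0∞) :
    eLpNorm (gradient ψ) p volume = eLpNorm (fderiv ℝ ψ) p volume :=
  eLpNorm_congr_norm_ae (Eventually.of_forall fun x => norm_gradient ψ x)

/-- Sobolev inequality -/
lemma sobolev : ∃ C : ℝ≥0, ∀ ψ : E → ℝ, ContDiff ℝ 1 ψ → HasCompactSupport ψ →
    eLpNorm ψ 6 volume ≤ C * eLpNorm (gradient ψ) 2 volume := by
  refine ⟨SNormLESNormFDerivOfEqConst ℝ (volume : Measure E) 2, fun ψ h1 h2 => ?_⟩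
  have := eLpNorm_le_eLpNorm_fderiv_of_eq (F := ℝ) (μ := (volume : Measure E)) h1 h2
    (p := 2) (p' := 6) (by norm_num) (by rw [fr3]; norm_num) (by rw [fr3]; norm_num)
  rw [eLpNorm_gradient]
  exact this

/-- squares of `L²` norms -/
lemma sq_eLpNorm {F : Type*} [NormedAddCommGroup F] {f : E → F} (hf : MemLp f 2 volume) :
    eLpNorm f 2 volume ^ 2 = ENNReal.ofReal (∫ x, ‖f x‖ ^ 2) := by
  rw [eLpNorm_eq_lintegral_rpow_enorm_toReal (by norm_num) (by norm_num)]
  have h2 : (2 : ℝ≥0∞).toReal = 2 := by norm_num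
  rw [h2, ← ENNReal.rpow_natCast, ← ENNReal.rpow_mul]
  norm_num
  have hi : Integrable (fun x => ‖f x‖ ^ 2) := hf.integrable_norm_pow (by norm_num)
  rw [ofReal_integral_eq_lintegral_ofReal hi (Eventually.of_forall fun x => by positivity)]
  refine lintegral_congr fun x => ?_
  rw [ENNReal.ofReal_pow (norm_nonneg _), ofReal_norm]

/-- comparison of `L²` norms from comparison of integrals -/
lemma eLpNorm_le_of_integral_le {F F' : Type*} [NormedAddCommGroup F] [NormedAddCommGroup F']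
    {f : E → F} {g : E → F'} (hf : MemLp f 2 volume) (hg : MemLp g 2 volume) (c : ℝ≥0)
    (h : ∫ x, ‖f x‖ ^ 2 ≤ c ^ 2 * ∫ x, ‖g x‖ ^ 2) :
    eLpNorm f 2 volume ≤ c * eLpNorm g 2 volume := by
  have h1 : eLpNorm f 2 volume ^ 2 ≤ (c * eLpNorm g 2 volume) ^ 2 := by
    rw [mul_pow, sq_eLpNorm hf, sq_eLpNorm hg]
    have : ((c : ℝ≥0∞)) ^ 2 = ENNReal.ofReal ((c : ℝ) ^ 2) := by
      rw [ENNReal.ofReal_pow (NNReal.coe_nonneg c), ENNReal.ofReal_coe_nnreal]
    rw [this, ← ENNReal.ofReal_mul (by positivity)]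
    exact ENNReal.ofReal_le_ofReal h
  exact (ENNReal.pow_le_pow_left_iff (by norm_num)).1 h1

lemma memLp_of_test {F : Type*} [NormedAddCommGroup F] {f : E → F} (hf : Continuous f)
    (hc : HasCompactSupport f) (p : ℝ≥0∞) : MemLp f p volume :=
  hf.memLp_of_hasCompactSupport hc

end Pool.Agent.J4.H76.HS
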