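import Mathlib
import Pool.Agent.J4.H76.HS.Basic

set_option autoImplicit false
open MeasureTheory Filter Topology Set
open scoped ENNReal NNReal InnerProductSpace

namespace Pool.Agent.J4.H76.HS

/-- coordinate vectors -/
noncomputable def ee (i : Fin 3) : E := EuclideanSpace.single i 1

lemma ee_apply (i j : Fin 3) : ee i j = if j = i then 1 else 0 := by
  simp [ee]

/-- the regularised field -/
noncomputable def gi (ε : ℝ) (i : Fin 3) (x : E) : ℝ := x i * (‖x‖ ^ 2 + ε)⁻¹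

lemma inner_ee (x : E) (i : Fin 3) : inner ℝ x (ee i) = x i := by
  rw [ee, EuclideanSpace.inner_single_right]
  simp

lemma contDiff_gi {ε : ℝ} (hε : 0 < ε) (i : Fin 3) : ContDiff ℝ 1 (gi ε i) := by
  unfold gi
  have h1 : ContDiff ℝ 1 (fun x : E => x i) := by fun_prop
  refine h1.mul (ContDiff.inv ((contDiff_norm_sq ℝ).add contDiff_const) fun x => by positivity)

lemma fderiv_gi {ε : ℝ} (hε : 0 < ε) (i : Fin 3) (x : E) :
    fderiv ℝ (gi ε i) x (ee i) = (‖x‖ ^ 2 + ε)⁻¹ - 2 * x i ^ 2 * ((‖x‖ ^ 2 + ε)⁻¹) ^ 2 := by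
  have h1 : HasFDerivAt (fun x : E => x i) (EuclideanSpace.proj i : E →L[ℝ] ℝ) x :=
    (EuclideanSpace.proj i : E →L[ℝ] ℝ).hasFDerivAt
  have h2 : HasFDerivAt (fun x : E => ‖x‖ ^ 2 + ε) (2 • (innerSL ℝ x)) x :=
    (hasStrictFDerivAt_norm_sq x).hasFDerivAt.add_const ε
  have hne : ‖x‖ ^ 2 + ε ≠ 0 := by positivity
  have h3 := (hasDerivAt_inv hne).comp_hasFDerivAt x h2
  have h4 := h1.mul h3
  have h5 : HasFDerivAt (gi ε i) _ x := h4
  rw [h5.fderiv]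
  simp [inner_ee, ee_apply]
  ring

lemma sum_sq_eq (x : E) : ∑ i, x i ^ 2 = ‖x‖ ^ 2 := by
  rw [EuclideanSpace.norm_sq_eq]
  simp

lemma sum_fderiv (L : E →L[ℝ] ℝ) (x : E) : ∑ i, x i * L (ee i) = L x := by
  have h : x = ∑ i, x i • ee i := by
    ext j
    simp [ee_apply]
  conv_rhs => rw [h]
  rw [map_sum]
  simp

/-- regularised Hardy inequality -/
lemma hardy_reg {ψ : E → ℝ} (hψ : ContDiff ℝ 1 ψ) (hc : HasCompactSupport ψ) {ε : ℝ} (hε : 0 < ε) :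
    ∫ x, ψ x ^ 2 * (‖x‖ ^ 2 + ε)⁻¹ ≤ 4 * ∫ x, ‖fderiv ℝ ψ x‖ ^ 2 := by
  have hsq : ContDiff ℝ 1 (fun x => ψ x ^ 2) := hψ.pow 2
  have hcsq : HasCompactSupport (fun x => ψ x ^ 2) := hc.comp_left (g := fun t : ℝ => t ^ 2) (by simp)
  have hfd : ∀ x v, fderiv ℝ (fun x => ψ x ^ 2) x v = 2 * ψ x * fderiv ℝ ψ x v := by
    intro x v
    have := ((hψ.differentiable (by norm_num) x).hasFDerivAt.pow 2).fderiv
    rw [this]
    simp
  have hfc : Continuous (fderiv ℝ ψ) := hψ.continuous_fderiv (by norm_num)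
  have hpos : ∀ x : E, 0 < ‖x‖ ^ 2 + ε := fun x => by positivity
  have hcinv : Continuous (fun x : E => (‖x‖ ^ 2 + ε)⁻¹) := by
    refine Continuous.inv₀ (by fun_prop) fun x => (hpos x).ne'
  -- integration by parts in each direction
  have key : ∀ i, ∫ x, ψ x ^ 2 * fderiv ℝ (gi ε i) x (ee i) =
      - ∫ x, (2 * ψ x * fderiv ℝ ψ x (ee i)) * gi ε i x := by
    intro i
    have hg := contDiff_gi hε i
    have hgc : Continuous (fun x => fderiv ℝ (gi ε i) x (ee i)) :=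
      (hg.continuous_fderiv (by norm_num)).clm_apply continuous_const
    have h := integral_mul_fderiv_eq_neg_fderiv_mul_of_integrable (μ := (volume : Measure E))
      (f := fun x => ψ x ^ 2) (g := gi ε i) (v := ee i) ?_ ?_ ?_
      (fun x _ => hsq.differentiable (by norm_num) x) (fun x _ => hg.differentiable (by norm_num) x)
    · rw [h]
      simp only [hfd]
    · refine Continuous.integrable_of_hasCompactSupport ?_ ?_
      · exact ((hsq.continuous_fderiv (by norm_num)).clm_apply continuous_const).mul hg.continuous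
      · exact ((hcsq.fderiv (𝕜 := ℝ)).comp_left (g := fun L : E →L[ℝ] ℝ => L (ee i)) (by simp)).mul_right
    · exact (hsq.continuous.mul hgc).integrable_of_hasCompactSupport hcsq.mul_right
    · exact (hsq.continuous.mul hg.continuous).integrable_of_hasCompactSupport hcsq.mul_right
  have hint : ∀ i, Integrable (fun x => ψ x ^ 2 * fderiv ℝ (gi ε i) x (ee i)) := by
    intro i
    have hg := contDiff_gi hε i
    have hgc : Continuous (fun x => fderiv ℝ (gi ε i) x (ee i)) :=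
      (hg.continuous_fderiv (by norm_num)).clm_apply continuous_const
    exact (hsq.continuous.mul hgc).integrable_of_hasCompactSupport hcsq.mul_right
  have hint2 : ∀ i, Integrable (fun x => (2 * ψ x * fderiv ℝ ψ x (ee i)) * gi ε i x) := by
    intro i
    have hg := contDiff_gi hε i
    refine Continuous.integrable_of_hasCompactSupport ?_ ?_
    · have := hψ.continuous
      have h2 : Continuous fun x => fderiv ℝ ψ x (ee i) := hfc.clm_apply continuous_const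
      exact ((continuous_const.mul this).mul h2).mul hg.continuous
    · have : HasCompactSupport (fun x => 2 * ψ x) := hc.comp_left (g := fun t : ℝ => 2 * t) (by simp)
      exact (this.mul_right).mul_right
  have hsum : ∫ x, ψ x ^ 2 * (3 * (‖x‖ ^ 2 + ε)⁻¹ - 2 * ‖x‖ ^ 2 * ((‖x‖ ^ 2 + ε)⁻¹) ^ 2) =
      - ∫ x, 2 * ψ x * fderiv ℝ ψ x x * (‖x‖ ^ 2 + ε)⁻¹ := by
    have e1 : ∀ x, ψ x ^ 2 * (3 * (‖x‖ ^ 2 + ε)⁻¹ - 2 * ‖x‖ ^ 2 * ((‖x‖ ^ 2 + ε)⁻¹) ^ 2) =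
        ∑ i, ψ x ^ 2 * fderiv ℝ (gi ε i) x (ee i) := by
      intro x
      simp only [fderiv_gi hε]
      rw [← Finset.mul_sum, Finset.sum_sub_distrib, ← Finset.sum_mul, ← Finset.mul_sum, sum_sq_eq]
      simp
    have e2 : ∀ x, 2 * ψ x * fderiv ℝ ψ x x * (‖x‖ ^ 2 + ε)⁻¹ =
        ∑ i, (2 * ψ x * fderiv ℝ ψ x (ee i)) * gi ε i x := by
      intro x
      have := sum_fderiv (fderiv ℝ ψ x) x
      rw [← this, Finset.mul_sum, Finset.sum_mul]
      refine Finset.sum_congr rfl fun i _ => ?_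
      rw [gi]; ring
    simp only [e1, e2]
    rw [integral_finsetSum _ fun i _ => hint i, integral_finsetSum _ fun i _ => hint2 i,
      ← Finset.sum_neg_distrib]
    exact Finset.sum_congr rfl fun i _ => key i
  have i1 : Integrable (fun x => ψ x ^ 2 * (‖x‖ ^ 2 + ε)⁻¹) :=
    (hsq.continuous.mul hcinv).integrable_of_hasCompactSupport hcsq.mul_right
  have i2 : Integrable (fun x => ‖fderiv ℝ ψ x‖ ^ 2) := by
    refine Continuous.integrable_of_hasCompactSupport (by fun_prop) ?_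
    exact (hc.fderiv (𝕜 := ℝ)).comp_left (g := fun L : E →L[ℝ] ℝ => ‖L‖ ^ 2) (by simp)
  have i3 : Integrable (fun x => ψ x ^ 2 * (3 * (‖x‖ ^ 2 + ε)⁻¹ -
      2 * ‖x‖ ^ 2 * ((‖x‖ ^ 2 + ε)⁻¹) ^ 2)) := by
    refine (hsq.continuous.mul ?_).integrable_of_hasCompactSupport hcsq.mul_right
    have : Continuous fun x : E => ‖x‖ ^ 2 := by fun_prop
    exact (continuous_const.mul hcinv).sub ((continuous_const.mul this).mul (hcinv.pow 2))
  have i4 : Integrable (fun x => 2 * ψ x * fderiv ℝ ψ x x * (‖x‖ ^ 2 + ε)⁻¹) := by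
    refine Continuous.integrable_of_hasCompactSupport ?_ ?_
    · have h2 : Continuous fun x => fderiv ℝ ψ x x := hfc.clm_apply continuous_id
      exact ((continuous_const.mul hψ.continuous).mul h2).mul hcinv
    · have : HasCompactSupport (fun x => 2 * ψ x) := hc.comp_left (g := fun t : ℝ => 2 * t) (by simp)
      exact (this.mul_right).mul_right
  have l1 : ∫ x, ψ x ^ 2 * (‖x‖ ^ 2 + ε)⁻¹ ≤
      ∫ x, ψ x ^ 2 * (3 * (‖x‖ ^ 2 + ε)⁻¹ - 2 * ‖x‖ ^ 2 * ((‖x‖ ^ 2 + ε)⁻¹) ^ 2) := by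
    refine integral_mono i1 i3 fun x => ?_
    refine mul_le_mul_of_nonneg_left ?_ (sq_nonneg _)
    have h1 : ‖x‖ ^ 2 * (‖x‖ ^ 2 + ε)⁻¹ ≤ 1 := by
      rw [← div_eq_mul_inv, div_le_one (hpos x)]; linarith
    have h2 : 0 < (‖x‖ ^ 2 + ε)⁻¹ := inv_pos.2 (hpos x)
    nlinarith
  have l2 : - ∫ x, 2 * ψ x * fderiv ℝ ψ x x * (‖x‖ ^ 2 + ε)⁻¹ ≤
      ∫ x, ((1 / 2) * (ψ x ^ 2 * (‖x‖ ^ 2 + ε)⁻¹) + 2 * ‖fderiv ℝ ψ x‖ ^ 2) := by
    rw [← integral_neg]
    refine integral_mono i4.neg ((i1.const_mul _).add (i2.const_mul _)) fun x => ?_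
    simp only
    have h1 : |fderiv ℝ ψ x x| ≤ ‖fderiv ℝ ψ x‖ * ‖x‖ := by
      have := (fderiv ℝ ψ x).le_opNorm x
      rwa [Real.norm_eq_abs] at this
    obtain ⟨D, hD⟩ : ∃ D, D = ‖fderiv ℝ ψ x‖ := ⟨_, rfl⟩
    obtain ⟨a, ha⟩ : ∃ a, a = fderiv ℝ ψ x x := ⟨_, rfl⟩
    obtain ⟨r, hr⟩ : ∃ r, r = (‖x‖ ^ 2 + ε)⁻¹ := ⟨_, rfl⟩
    have hr0 : 0 < r := by rw [hr]; exact inv_pos.2 (hpos x)
    have hr1 : ‖x‖ ^ 2 * r ≤ 1 := by
      rw [hr, ← div_eq_mul_inv, div_le_one (hpos x)]; linarith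
    have hD0 : 0 ≤ D := by rw [hD]; positivity
    rw [← hD, ← ha, ← hr]
    rw [← hD, ← ha] at h1
    have h2 : a ^ 2 ≤ D ^ 2 * ‖x‖ ^ 2 := by
      have := abs_nonneg a
      calc a ^ 2 = |a| ^ 2 := (sq_abs a).symm
        _ ≤ (D * ‖x‖) ^ 2 := pow_le_pow_left₀ this h1 2
        _ = _ := by ring
    have h3 : a ^ 2 * r ≤ D ^ 2 := by
      calc a ^ 2 * r ≤ D ^ 2 * ‖x‖ ^ 2 * r := mul_le_mul_of_nonneg_right h2 hr0.le
        _ = D ^ 2 * (‖x‖ ^ 2 * r) := by ring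
        _ ≤ D ^ 2 * 1 := mul_le_mul_of_nonneg_left hr1 (sq_nonneg _)
        _ = _ := by ring
    have h4 : 0 ≤ r * (ψ x + 2 * a) ^ 2 := by positivity
    nlinarith
  have l3 : ∫ x, ((1 / 2) * (ψ x ^ 2 * (‖x‖ ^ 2 + ε)⁻¹) + 2 * ‖fderiv ℝ ψ x‖ ^ 2) =
      (1 / 2) * (∫ x, ψ x ^ 2 * (‖x‖ ^ 2 + ε)⁻¹) + 2 * ∫ x, ‖fderiv ℝ ψ x‖ ^ 2 := by
    rw [integral_add (i1.const_mul _) (i2.const_mul _), integral_const_mul, integral_const_mul]
  rw [hsum] at l1
  rw [l3] at l2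
  linarith

/-- Hardy inequality for smooth functions -/
lemma hardy {ψ : E → ℝ} (hψ : ContDiff ℝ 1 ψ) (hc : HasCompactSupport ψ) :
    eLpNorm (fun x => ψ x * ‖x‖⁻¹) 2 volume ≤ 2 * eLpNorm (gradient ψ) 2 volume := by
  have hfc : Continuous (fderiv ℝ ψ) := hψ.continuous_fderiv (by norm_num)
  have hm : MemLp (fderiv ℝ ψ) 2 volume := memLp_of_test hfc (hc.fderiv (𝕜 := ℝ)) 2
  rw [eLpNorm_gradient]
  have hcont : ∀ n : ℕ, Continuous (fun x : E => ψ x * (Real.sqrt (‖x‖ ^ 2 + ((n : ℝ) + 1)⁻¹))⁻¹) := by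
    intro n
    refine hψ.continuous.mul (Continuous.inv₀ (by fun_prop) fun x => ?_)
    have : 0 < ‖x‖ ^ 2 + ((n : ℝ) + 1)⁻¹ := by positivity
    exact (Real.sqrt_pos.2 this).ne'
  refine Lp.eLpNorm_le_of_ae_tendsto (u := atTop)
    (f := fun n : ℕ => fun x => ψ x * (Real.sqrt (‖x‖ ^ 2 + ((n : ℝ) + 1)⁻¹))⁻¹) ?_ ?_ ?_
  · refine Eventually.of_forall fun n => ?_
    have h1 : MemLp (fun x : E => ψ x * (Real.sqrt (‖x‖ ^ 2 + ((n : ℝ) + 1)⁻¹))⁻¹) 2 volume :=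
      memLp_of_test (hcont n) hc.mul_right 2
    refine eLpNorm_le_of_integral_le h1 hm 2 ?_
    have h2 := hardy_reg hψ hc (ε := ((n : ℝ) + 1)⁻¹) (by positivity)
    have h3 : ∫ x : E, ‖ψ x * (Real.sqrt (‖x‖ ^ 2 + ((n : ℝ) + 1)⁻¹))⁻¹‖ ^ 2 =
        ∫ x, ψ x ^ 2 * (‖x‖ ^ 2 + ((n : ℝ) + 1)⁻¹)⁻¹ := by
      refine integral_congr_ae (Eventually.of_forall fun x => ?_)
      simp only
      have hp : 0 ≤ ‖x‖ ^ 2 + ((n : ℝ) + 1)⁻¹ := by positivity
      rw [Real.norm_eq_abs, sq_abs, mul_pow, inv_pow, Real.sq_sqrt hp]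
    rw [h3]
    refine h2.trans (le_of_eq ?_)
    norm_num
  · intro n
    exact (hcont n).aestronglyMeasurable
  · have hz : ∀ᵐ z : E, z ≠ 0 := by
      rw [ae_iff]; simp
    filter_upwards [hz] with x hx
    refine Tendsto.const_mul _ ?_
    have hxp : 0 < ‖x‖ := norm_pos_iff.2 hx
    refine Tendsto.inv₀ ?_ hxp.ne'
    have h1 : Tendsto (fun n : ℕ => ‖x‖ ^ 2 + ((n : ℝ) + 1)⁻¹) atTop (𝓝 (‖x‖ ^ 2 + 0)) := by
      refine Tendsto.const_add _ ?_
      have := tendsto_one_div_add_atTop_nhds_zero_nat (𝕜 := ℝ)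
      simpa [one_div] using this
    have h2 := (Real.continuous_sqrt.tendsto _).comp h1
    rw [add_zero, Real.sqrt_sq hxp.le] at h2
    exact h2

end Pool.Agent.J4.H76.HS
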