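import Mathlib
import Pool.Agent.J4.H76.HS.Hardy

set_option autoImplicit false
open MeasureTheory Filter Topology Set
open scoped ENNReal NNReal InnerProductSpace

namespace Pool.Agent.J4.H76.HS

lemma map_smul_E {c : ℝ} (hc : 0 < c) :
    Measure.map (fun x : E => c • x) volume = ENNReal.ofReal ((c ^ 3)⁻¹) • (volume : Measure E) := by
  have := Measure.map_addHaar_smul (volume : Measure E) hc.ne'
  rw [fr3, abs_of_pos (by positivity)] at this
  exact this

lemma embed_smul {c : ℝ} (hc : 0 < c) : MeasurableEmbedding (fun x : E => c • x) :=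
  (Homeomorph.smulOfNeZero c hc.ne').measurableEmbedding

lemma eLpNorm_dil {F : Type*} [NormedAddCommGroup F] (f : E → F) {c : ℝ} (hc : 0 < c) (p : ℝ≥0∞)
    (hp : p ≠ ∞) :
    eLpNorm (fun x => f (c • x)) p volume =
      ENNReal.ofReal ((c ^ 3)⁻¹) ^ (1 / p).toReal * eLpNorm f p volume := by
  have h1 := (embed_smul hc).eLpNorm_map_measure (μ := volume) (g := f) (p := p)
  rw [map_smul_E hc, eLpNorm_smul_measure_of_ne_top hp] at h1
  exact h1.symm

lemma quasi_smul {c : ℝ} (hc : 0 < c) :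
    Measure.QuasiMeasurePreserving (fun x : E => c • x) volume volume :=
  Measure.quasiMeasurePreserving_smul (volume : Measure E) hc.ne'

lemma memLp_dil {F : Type*} [NormedAddCommGroup F] {f : E → F} {c : ℝ} (hc : 0 < c) {p : ℝ≥0∞}
    (hp : p ≠ ∞) (hf : MemLp f p volume) : MemLp (fun x => f (c • x)) p volume := by
  refine ⟨hf.1.comp_quasiMeasurePreserving (quasi_smul hc), ?_⟩
  rw [eLpNorm_dil f hc p hp]
  exact ENNReal.mul_lt_top (ENNReal.rpow_lt_top_of_nonneg (by positivity) ENNReal.ofReal_ne_top) hf.2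

lemma integral_dil {c : ℝ} (hc : 0 < c) (f : E → ℝ) :
    ∫ x, f (c • x) = (c ^ 3)⁻¹ * ∫ x, f x := by
  have := Measure.integral_comp_smul (volume : Measure E) f c
  rw [fr3, abs_of_pos (by positivity), smul_eq_mul] at this
  exact this

lemma lintegral_dil {c : ℝ} (hc : 0 < c) (f : E → ℝ≥0∞) :
    ∫⁻ x, f (c • x) = ENNReal.ofReal ((c ^ 3)⁻¹) * ∫⁻ x, f x := by
  have h1 := (embed_smul hc).lintegral_map (μ := volume) f
  rw [← h1, map_smul_E hc, lintegral_smul_measure, smul_eq_mul]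

/-- the square of an interval integral -/
lemma sq_integral_le {h : ℝ → ℝ} (hh : Continuous h) {a b : ℝ} (hab : a ≤ b) :
    (∫ t in a..b, h t) ^ 2 ≤ (b - a) * ∫ t in a..b, h t ^ 2 := by
  obtain ⟨S, hS⟩ : ∃ S, S = ∫ t in a..b, h t := ⟨_, rfl⟩
  obtain ⟨Q, hQ⟩ : ∃ Q, Q = ∫ t in a..b, h t ^ 2 := ⟨_, rfl⟩
  have h1 : ∀ l : ℝ, 0 ≤ Q - 2 * l * S + l ^ 2 * (b - a) := by
    intro l
    have e : Q - 2 * l * S + l ^ 2 * (b - a) = ∫ t in a..b, (h t - l) ^ 2 := by
      have e1 : ∀ t, (h t - l) ^ 2 = h t ^ 2 - 2 * l * h t + l ^ 2 := fun t => by ring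
      simp only [e1]
      rw [intervalIntegral.integral_add, intervalIntegral.integral_sub,
        intervalIntegral.integral_const_mul, intervalIntegral.integral_const, hQ, hS, smul_eq_mul]
      · ring
      · exact (hh.pow 2).intervalIntegrable _ _
      · exact (continuous_const.mul hh).intervalIntegrable _ _
      · exact ((hh.pow 2).sub (continuous_const.mul hh)).intervalIntegrable _ _
      · exact continuous_const.intervalIntegrable _ _
    rw [e]
    exact intervalIntegral.integral_nonneg hab fun t _ => sq_nonneg _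
  rw [← hS, ← hQ]
  rcases eq_or_lt_of_le hab with h0 | h0
  · subst h0
    simp at hS
    rw [hS]; simp
  · have hb : 0 < b - a := by linarith
    have h2 := h1 (S / (b - a))
    have h3 : Q - 2 * (S / (b - a)) * S + (S / (b - a)) ^ 2 * (b - a) = Q - S ^ 2 / (b - a) := by
      field_simp
      ring
    rw [h3, sub_nonneg, div_le_iff₀ hb] at h2
    linarith

/-- the generator of the dilations -/
noncomputable def eta (ψ : E → ℝ) (y : E) : ℝ := ψ y + 2 * fderiv ℝ ψ y y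

lemma continuous_eta {ψ : E → ℝ} (hψ : ContDiff ℝ 1 ψ) : Continuous (eta ψ) := by
  unfold eta
  have hfc : Continuous (fderiv ℝ ψ) := hψ.continuous_fderiv (by norm_num)
  exact hψ.continuous.add (continuous_const.mul (hfc.clm_apply continuous_id))

lemma ftc {ψ : E → ℝ} (hψ : ContDiff ℝ 1 ψ) (x : E) (m : ℝ) :
    ψ x - m * ψ (m ^ 2 • x) = - ∫ t in (1:ℝ)..m, eta ψ (t ^ 2 • x) := by
  have hd : ∀ t : ℝ, HasDerivAt (fun t : ℝ => t * ψ (t ^ 2 • x)) (eta ψ (t ^ 2 • x)) t := by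
    intro t
    have h1 : HasDerivAt (fun t : ℝ => t ^ 2 • x) ((2 * t) • x) t := by
      have := (hasDerivAt_pow 2 t).smul_const x
      simpa using this
    have h2 := (hψ.differentiable (by norm_num) (t ^ 2 • x)).hasFDerivAt.comp_hasDerivAt t h1
    have h3 := (hasDerivAt_id t).mul h2
    refine h3.congr_deriv ?_
    simp [eta]
    ring
  have hc : Continuous (fun t : ℝ => eta ψ (t ^ 2 • x)) := (continuous_eta hψ).comp (by fun_prop)
  have h := intervalIntegral.integral_eq_sub_of_hasDerivAt (a := 1) (b := m) (fun t _ => hd t)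
    (hc.intervalIntegrable _ _)
  rw [h]
  simp

lemma diff_lintegral {ψ : E → ℝ} (hψ : ContDiff ℝ 1 ψ) {m : ℝ} (hm : 1 ≤ m) :
    ∫⁻ x, ENNReal.ofReal ((ψ x - m * ψ (m ^ 2 • x)) ^ 2) ≤
      ENNReal.ofReal (m - 1) * (ENNReal.ofReal (m - 1) * ∫⁻ x, ENNReal.ofReal (eta ψ x ^ 2)) := by
  have hce := continuous_eta hψ
  have h1 : ∀ x, ENNReal.ofReal ((ψ x - m * ψ (m ^ 2 • x)) ^ 2) ≤
      ENNReal.ofReal (m - 1) * ∫⁻ t in Ioc 1 m, ENNReal.ofReal (eta ψ (t ^ 2 • x) ^ 2) := by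
    intro x
    have hc : Continuous (fun t : ℝ => eta ψ (t ^ 2 • x)) := hce.comp (by fun_prop)
    rw [ftc hψ x m, neg_sq]
    have h2 := sq_integral_le hc hm
    refine (ENNReal.ofReal_le_ofReal h2).trans ?_
    rw [ENNReal.ofReal_mul (by linarith), intervalIntegral.integral_of_le hm,
      ofReal_integral_eq_lintegral_ofReal]
    · exact ((hc.pow 2).intervalIntegrable (μ := volume) 1 m).1
    · exact Eventually.of_forall fun t => sq_nonneg _
  calc ∫⁻ x, ENNReal.ofReal ((ψ x - m * ψ (m ^ 2 • x)) ^ 2)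
      ≤ ∫⁻ x : E, ENNReal.ofReal (m - 1) * ∫⁻ t in Ioc 1 m, ENNReal.ofReal (eta ψ (t ^ 2 • x) ^ 2) :=
        lintegral_mono h1
    _ = ENNReal.ofReal (m - 1) * ∫⁻ x : E, ∫⁻ t in Ioc 1 m, ENNReal.ofReal (eta ψ (t ^ 2 • x) ^ 2) :=
        lintegral_const_mul' _ _ ENNReal.ofReal_ne_top
    _ = ENNReal.ofReal (m - 1) * ∫⁻ t in Ioc 1 m, ∫⁻ x : E, ENNReal.ofReal (eta ψ (t ^ 2 • x) ^ 2) := by
        rw [lintegral_lintegral_swap]
        have : Continuous (fun q : E × ℝ => ENNReal.ofReal (eta ψ (q.2 ^ 2 • q.1) ^ 2)) := by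
          refine ENNReal.continuous_ofReal.comp ((hce.comp ?_).pow 2)
          fun_prop
        exact this.aemeasurable
    _ ≤ ENNReal.ofReal (m - 1) * ∫⁻ t in Ioc 1 m, ∫⁻ x : E, ENNReal.ofReal (eta ψ x ^ 2) := by
        refine mul_le_mul' le_rfl ?_
        refine setLIntegral_mono' measurableSet_Ioc fun t ht => ?_
        have ht1 : 1 < t := ht.1
        have ht0 : 0 < t ^ 2 := by positivity
        rw [lintegral_dil ht0 (fun y => ENNReal.ofReal (eta ψ y ^ 2))]
        have : ENNReal.ofReal (((t ^ 2) ^ 3)⁻¹) ≤ 1 := by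
          rw [← ENNReal.ofReal_one]
          apply ENNReal.ofReal_le_ofReal
          apply inv_le_one_of_one_le₀
          have : 1 ≤ t ^ 2 := by nlinarith
          exact one_le_pow₀ this
        calc _ ≤ 1 * ∫⁻ x : E, ENNReal.ofReal (eta ψ x ^ 2) := mul_le_mul' this le_rfl
          _ = _ := one_mul _
    _ = _ := by
        rw [setLIntegral_const, Real.volume_Ioc, mul_comm (∫⁻ x, ENNReal.ofReal (eta ψ x ^ 2))]

lemma eLpNorm_two_sq_lintegral (f : E → ℝ) :
    eLpNorm f 2 volume = (∫⁻ x, ENNReal.ofReal (f x ^ 2)) ^ (1 / 2 : ℝ) := by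
  rw [eLpNorm_eq_lintegral_rpow_enorm_toReal (by norm_num) (by norm_num)]
  have h2 : (2 : ℝ≥0∞).toReal = 2 := by norm_num
  rw [h2]
  congr 1
  refine lintegral_congr fun x => ?_
  rw [← sq_abs, ← Real.norm_eq_abs, ENNReal.ofReal_pow (norm_nonneg _), ofReal_norm]
  norm_cast

lemma diff_eLpNorm {ψ : E → ℝ} (hψ : ContDiff ℝ 1 ψ) {m : ℝ} (hm : 1 ≤ m) :
    eLpNorm (fun x => ψ x - m * ψ (m ^ 2 • x)) 2 volume ≤
      ENNReal.ofReal (m - 1) * eLpNorm (eta ψ) 2 volume := by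
  rw [eLpNorm_two_sq_lintegral, eLpNorm_two_sq_lintegral]
  have h := ENNReal.rpow_le_rpow (diff_lintegral hψ hm) (show (0:ℝ) ≤ 1 / 2 by norm_num)
  refine h.trans (le_of_eq ?_)
  rw [← mul_assoc, ENNReal.mul_rpow_of_nonneg _ _ (by norm_num)]
  congr 1
  rw [← sq, ← ENNReal.rpow_natCast, ← ENNReal.rpow_mul]
  norm_num

lemma eta_eLpNorm {ψ : E → ℝ} (hψ : ContDiff ℝ 1 ψ) (hs : tsupport ψ ⊆ Metric.closedBall 0 2) :
    eLpNorm (eta ψ) 2 volume ≤ eLpNorm ψ 2 volume + 4 * eLpNorm (gradient ψ) 2 volume := by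
  have hfc : Continuous (fderiv ℝ ψ) := hψ.continuous_fderiv (by norm_num)
  have e : eta ψ = ψ + fun y => 2 * fderiv ℝ ψ y y := rfl
  rw [e]
  refine (eLpNorm_add_le hψ.continuous.aestronglyMeasurable
    (continuous_const.mul (hfc.clm_apply continuous_id)).aestronglyMeasurable (by norm_num)).trans ?_
  refine add_le_add le_rfl ?_
  have h1 : eLpNorm (fun y => 2 * fderiv ℝ ψ y y) 2 volume ≤
      eLpNorm ((4 : ℝ) • gradient ψ) 2 volume := by
    refine eLpNorm_mono fun y => ?_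
    rw [Pi.smul_apply, norm_smul, norm_gradient]
    by_cases hy : y ∈ tsupport ψ
    · have h2 : ‖y‖ ≤ 2 := by simpa using hs hy
      have h3 := (fderiv ℝ ψ y).le_opNorm y
      rw [norm_mul]
      have h4 : ‖(2:ℝ)‖ = 2 := by norm_num
      have h5 : ‖(4:ℝ)‖ = 4 := by norm_num
      rw [h4, h5]
      have h6 : 0 ≤ ‖fderiv ℝ ψ y‖ := norm_nonneg _
      nlinarith
    · rw [fderiv_of_notMem_tsupport ℝ hy]
      simp
  refine h1.trans ?_
  rw [eLpNorm_const_smul]
  refine le_of_eq ?_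
  congr 1
  rw [← ofReal_norm]
  norm_num

end Pool.Agent.J4.H76.HS
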