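import Mathlib
import Pool.Agent.J4.H76.HS.Dil

set_option autoImplicit false
open MeasureTheory Filter Topology Set
open scoped ENNReal NNReal InnerProductSpace

namespace Pool.Agent.J4.H76.HS

/-- test functions in `Ω` -/
def T (Ω : Set E) (ψ : E → ℝ) : Prop :=
  ContDiff ℝ ((⊤ : ℕ∞) : WithTop ℕ∞) ψ ∧ HasCompactSupport ψ ∧ tsupport ψ ⊆ Ω

/-- functions in `H¹₀` together with their gradients -/
def H (Ω : Set E) (u : E → ℝ) (G : E → E) : Prop :=
  MemLp u 2 volume ∧ MemLp G 2 volume ∧ ∃ φ : ℕ → E → ℝ, (∀ n, T Ω (φ n)) ∧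
    Tendsto (fun n => eLpNorm (fun x => φ n x - u x) 2 volume) atTop (𝓝 0) ∧
    Tendsto (fun n => eLpNorm (fun x => gradient (φ n) x - G x) 2 volume) atTop (𝓝 0)

variable {Ω : Set E}

lemma T.c1 {ψ : E → ℝ} (h : T Ω ψ) : ContDiff ℝ 1 ψ := h.1.of_le (by exact_mod_cast le_top)

lemma T.cont_grad {ψ : E → ℝ} (h : T Ω ψ) : Continuous (gradient ψ) := by
  unfold gradient
  exact (InnerProductSpace.toDual ℝ E).symm.continuous.comp (h.c1.continuous_fderiv (by norm_num))

lemma T.supp_grad {ψ : E → ℝ} (h : T Ω ψ) : HasCompactSupport (gradient ψ) := by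
  unfold gradient
  exact (h.2.1.fderiv (𝕜 := ℝ)).comp_left (g := fun L => (InnerProductSpace.toDual ℝ E).symm L)
    (by simp)

lemma T.memLp {ψ : E → ℝ} (h : T Ω ψ) (p : ℝ≥0∞) : MemLp ψ p volume :=
  memLp_of_test h.1.continuous h.2.1 p

lemma T.memLp_grad {ψ : E → ℝ} (h : T Ω ψ) (p : ℝ≥0∞) : MemLp (gradient ψ) p volume :=
  memLp_of_test h.cont_grad h.supp_grad p

/-- a subsequence converging almost everywhere -/
lemma exists_subseq {φ : ℕ → E → ℝ} {u : E → ℝ} (hφ : ∀ n, T Ω (φ n)) (hu : MemLp u 2 volume)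
    (h : Tendsto (fun n => eLpNorm (fun x => φ n x - u x) 2 volume) atTop (𝓝 0)) :
    ∃ ns : ℕ → ℕ, StrictMono ns ∧ ∀ᵐ x, Tendsto (fun n => φ (ns n) x) atTop (𝓝 (u x)) := by
  have h1 : TendstoInMeasure volume φ atTop u :=
    tendstoInMeasure_of_tendsto_eLpNorm (by norm_num)
      (fun n => (hφ n).1.continuous.aestronglyMeasurable) hu.1 h
  exact h1.exists_seq_tendsto_ae

/-- passage to the limit in a norm inequality -/
lemma limit_bound {u : E → ℝ} {G : E → E} (h : H Ω u G) {ρ : E → ℝ}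
    (hρ : AEStronglyMeasurable ρ volume) {p : ℝ≥0∞} {C : ℝ≥0}
    (hb : ∀ ψ, T Ω ψ → eLpNorm (fun x => ψ x * ρ x) p volume ≤ C * eLpNorm (gradient ψ) 2 volume) :
    eLpNorm (fun x => u x * ρ x) p volume ≤ C * eLpNorm G 2 volume := by
  obtain ⟨hu, hG, φ, hφ, h1, h2⟩ := h
  obtain ⟨ns, hns, hae⟩ := exists_subseq hφ hu h1
  have l1 : eLpNorm (fun x => u x * ρ x) p volume ≤
      atTop.liminf fun n => eLpNorm (fun x => φ (ns n) x * ρ x) p volume := by
    refine Lp.eLpNorm_lim_le_liminf_eLpNorm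
      (fun n => (hφ (ns n)).1.continuous.aestronglyMeasurable.mul hρ) _ ?_
    filter_upwards [hae] with x hx
    exact hx.mul_const _
  have l2 : ∀ n, eLpNorm (fun x => φ (ns n) x * ρ x) p volume ≤
      C * (eLpNorm (fun x => gradient (φ (ns n)) x - G x) 2 volume + eLpNorm G 2 volume) := by
    intro n
    refine (hb _ (hφ (ns n))).trans (mul_le_mul' le_rfl ?_)
    have e : gradient (φ (ns n)) = (fun x => gradient (φ (ns n)) x - G x) + G := by
      funext x; simp
    conv_lhs => rw [e]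
    exact eLpNorm_add_le ((hφ (ns n)).cont_grad.aestronglyMeasurable.sub hG.1) hG.1 (by norm_num)
  have l3 : Tendsto (fun n => (C : ℝ≥0∞) *
      (eLpNorm (fun x => gradient (φ (ns n)) x - G x) 2 volume + eLpNorm G 2 volume)) atTop
      (𝓝 (C * (0 + eLpNorm G 2 volume))) := by
    refine ENNReal.Tendsto.const_mul ?_ (Or.inr ENNReal.coe_ne_top)
    exact (h2.comp hns.tendsto_atTop).add tendsto_const_nhds
  rw [zero_add] at l3
  exact l1.trans ((liminf_le_liminf (Eventually.of_forall l2)).trans (le_of_eq l3.liminf_eq))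

lemma hardy_H {u : E → ℝ} {G : E → E} (h : H Ω u G) :
    eLpNorm (fun x => u x * ‖x‖⁻¹) 2 volume ≤ 2 * eLpNorm G 2 volume := by
  have := limit_bound (C := 2) (p := 2) h (ρ := fun x => ‖x‖⁻¹)
    (measurable_norm.inv.aestronglyMeasurable) (fun ψ hψ => by
      have := hardy hψ.c1 hψ.2.1
      exact_mod_cast this)
  exact_mod_cast this

lemma sobolev_H : ∃ C : ℝ≥0, ∀ (Ω : Set E) (u : E → ℝ) (G : E → E), H Ω u G →
    eLpNorm u 6 volume ≤ C * eLpNorm G 2 volume := by
  obtain ⟨C, hC⟩ := sobolev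
  refine ⟨C, fun Ω u G h => ?_⟩
  have := limit_bound (C := C) (p := 6) h (ρ := fun _ => 1) aestronglyMeasurable_const
    (fun ψ hψ => by
      have := hC ψ hψ.c1 hψ.2.1
      simpa using this)
  simpa using this

lemma gradient_sub' {φ ψ : E → ℝ} (hφ : T Ω φ) (hψ : T Ω ψ) (x : E) :
    gradient (fun x => φ x - ψ x) x = gradient φ x - gradient ψ x := by
  unfold gradient
  have : fderiv ℝ (fun x => φ x - ψ x) x = fderiv ℝ φ x - fderiv ℝ ψ x := by
    exact fderiv_fun_sub (hφ.c1.differentiable (by norm_num) x) (hψ.c1.differentiable (by norm_num) x)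
  rw [this, map_sub]

lemma T.sub {φ ψ : E → ℝ} (hφ : T Ω φ) (hψ : T Ω ψ) : T Ω (fun x => φ x - ψ x) := by
  refine ⟨hφ.1.sub hψ.1, hφ.2.1.sub hψ.2.1, ?_⟩
  refine (closure_mono (?_ : Function.support (fun x => φ x - ψ x) ⊆
    Function.support φ ∪ Function.support ψ)).trans ?_
  · intro x hx
    by_contra hcon
    simp only [mem_union, Function.mem_support, not_or, not_not] at hcon
    apply hx
    simp [hcon.1, hcon.2]
  · rw [closure_union]
    exact union_subset hφ.2.2 hψ.2.2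

lemma H.sub {u v : E → ℝ} {G K : E → E} (h : H Ω u G) (h' : H Ω v K) :
    H Ω (fun x => u x - v x) (fun x => G x - K x) := by
  obtain ⟨hu, hG, φ, hφ, h1, h2⟩ := h
  obtain ⟨hv, hK, χ, hχ, h3, h4⟩ := h'
  refine ⟨hu.sub hv, hG.sub hK, fun n x => φ n x - χ n x, fun n => (hφ n).sub (hχ n), ?_, ?_⟩
  · have hlim := h1.add h3
    rw [add_zero] at hlim
    refine tendsto_of_tendsto_of_tendsto_of_le_of_le tendsto_const_nhds hlim (fun n => zero_le) ?_
    intro n
    have e : (fun x => φ n x - χ n x - (u x - v x)) = (fun x => φ n x - u x) - fun x => χ n x - v x := by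
      funext x; simp; ring
    simp only [e]
    exact eLpNorm_sub_le ((hφ n).1.continuous.aestronglyMeasurable.sub hu.1)
      ((hχ n).1.continuous.aestronglyMeasurable.sub hv.1) (by norm_num)
  · have hlim := h2.add h4
    rw [add_zero] at hlim
    refine tendsto_of_tendsto_of_tendsto_of_le_of_le tendsto_const_nhds hlim (fun n => zero_le) ?_
    intro n
    have e : (fun x => gradient (fun x => φ n x - χ n x) x - (G x - K x)) =
        (fun x => gradient (φ n) x - G x) - fun x => gradient (χ n) x - K x := by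
      funext x
      rw [gradient_sub' (hφ n) (hχ n)]
      simp only [Pi.sub_apply]
      abel
    simp only [e]
    exact eLpNorm_sub_le ((hφ n).cont_grad.aestronglyMeasurable.sub hG.1)
      ((hχ n).cont_grad.aestronglyMeasurable.sub hK.1) (by norm_num)

lemma T.H {ψ : E → ℝ} (h : T Ω ψ) : H Ω ψ (gradient ψ) :=
  ⟨h.memLp 2, h.memLp_grad 2, fun _ => ψ, fun _ => h, by simp, by simp⟩

lemma gradient_dil {ψ : E → ℝ} (hψ : ContDiff ℝ 1 ψ) (m : ℝ) (x : E) :
    gradient (fun x => m * ψ (m ^ 2 • x)) x = m ^ 3 • gradient ψ (m ^ 2 • x) := by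
  have h1 : HasFDerivAt (fun x : E => m ^ 2 • x) (m ^ 2 • ContinuousLinearMap.id ℝ E) x :=
    (m ^ 2 • ContinuousLinearMap.id ℝ E).hasFDerivAt
  have h2 := ((hψ.differentiable (by norm_num) (m ^ 2 • x)).hasFDerivAt.comp x h1).const_mul m
  have h3 : fderiv ℝ (fun x => m * ψ (m ^ 2 • x)) x = m ^ 3 • fderiv ℝ ψ (m ^ 2 • x) := by
    have h4 : HasFDerivAt (fun x => m * ψ (m ^ 2 • x)) _ x := h2
    rw [h4.fderiv]
    ext v
    simp
    ring
  unfold gradient
  rw [h3, map_smul]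

lemma T.dil {ψ : E → ℝ} (h : T Ω ψ) (hstar : ∀ y ∈ Ω, ∀ t : ℝ, 0 < t → t ≤ 1 → t • y ∈ Ω)
    {m : ℝ} (hm : 1 ≤ m) : T Ω (fun x => m * ψ (m ^ 2 • x)) := by
  have hm0 : m ^ 2 ≠ 0 := by positivity
  have hsupp : HasCompactSupport (fun x => ψ (m ^ 2 • x)) :=
    h.2.1.comp_homeomorph (Homeomorph.smulOfNeZero (m ^ 2) hm0)
  refine ⟨?_, ?_, ?_⟩
  · have := h.1
    fun_prop
  · exact hsupp.mul_left
  · intro x hx
    have h1 : m ^ 2 • x ∈ tsupport ψ := by
      have h2 : tsupport (fun x => m * ψ (m ^ 2 • x)) ⊆ (fun x : E => m ^ 2 • x) ⁻¹' tsupport ψ := by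
        refine closure_minimal ?_ ((isClosed_tsupport ψ).preimage (by fun_prop))
        intro y hy
        apply subset_closure
        intro h0
        apply hy
        simp only
        rw [h0, mul_zero]
      exact h2 hx
    have h2 := hstar _ (h.2.2 h1) ((m ^ 2)⁻¹) (by positivity)
      (inv_le_one_of_one_le₀ (one_le_pow₀ hm))
    rwa [smul_smul, inv_mul_cancel₀ hm0, one_smul] at h2

lemma H.dil {u : E → ℝ} {G : E → E} (h : H Ω u G)
    (hstar : ∀ y ∈ Ω, ∀ t : ℝ, 0 < t → t ≤ 1 → t • y ∈ Ω) {m : ℝ} (hm : 1 ≤ m) :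
    H Ω (fun x => m * u (m ^ 2 • x)) (fun x => m ^ 3 • G (m ^ 2 • x)) := by
  obtain ⟨hu, hG, φ, hφ, h1, h2⟩ := h
  have hc : 0 < m ^ 2 := by positivity
  refine ⟨(memLp_dil hc (by norm_num) hu).const_mul m, (memLp_dil hc (by norm_num) hG).const_smul (m ^ 3),
    fun n x => m * φ n (m ^ 2 • x), fun n => (hφ n).dil hstar hm, ?_, ?_⟩
  · have e : ∀ n, eLpNorm (fun x => m * φ n (m ^ 2 • x) - m * u (m ^ 2 • x)) 2 volume =
        ‖m‖ₑ * (ENNReal.ofReal (((m ^ 2) ^ 3)⁻¹) ^ (1 / (2 : ℝ≥0∞)).toReal *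
          eLpNorm (fun x => φ n x - u x) 2 volume) := by
      intro n
      rw [← eLpNorm_dil (fun x => φ n x - u x) hc 2 (by norm_num), ← eLpNorm_const_smul]
      congr 1
      funext x
      simp [mul_sub]
    simp only [e]
    have := (ENNReal.Tendsto.const_mul h1 (a := ENNReal.ofReal (((m ^ 2) ^ 3)⁻¹) ^ (1 / (2 : ℝ≥0∞)).toReal)
      (Or.inr (ENNReal.rpow_ne_top_of_nonneg (by positivity) ENNReal.ofReal_ne_top)))
    have := ENNReal.Tendsto.const_mul this (a := ‖m‖ₑ) (Or.inr enorm_ne_top)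
    simpa using this
  · have e : ∀ n, eLpNorm (fun x => gradient (fun x => m * φ n (m ^ 2 • x)) x -
        m ^ 3 • G (m ^ 2 • x)) 2 volume =
        ‖m ^ 3‖ₑ * (ENNReal.ofReal (((m ^ 2) ^ 3)⁻¹) ^ (1 / (2 : ℝ≥0∞)).toReal *
          eLpNorm (fun x => gradient (φ n) x - G x) 2 volume) := by
      intro n
      rw [← eLpNorm_dil (fun x => gradient (φ n) x - G x) hc 2 (by norm_num), ← eLpNorm_const_smul]
      congr 1
      funext x
      rw [gradient_dil (hφ n).c1]
      simp [smul_sub]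
    simp only [e]
    have := (ENNReal.Tendsto.const_mul h2 (a := ENNReal.ofReal (((m ^ 2) ^ 3)⁻¹) ^ (1 / (2 : ℝ≥0∞)).toReal)
      (Or.inr (ENNReal.rpow_ne_top_of_nonneg (by positivity) ENNReal.ofReal_ne_top)))
    have := ENNReal.Tendsto.const_mul this (a := ‖m ^ 3‖ₑ) (Or.inr enorm_ne_top)
    simpa using this

lemma H.ae_zero {u : E → ℝ} {G : E → E} (h : H Ω u G) : ∀ᵐ x, x ∉ Ω → u x = 0 := by
  obtain ⟨hu, hG, φ, hφ, h1, h2⟩ := h
  obtain ⟨ns, hns, hae⟩ := exists_subseq hφ hu h1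
  filter_upwards [hae] with x hx hxΩ
  have : ∀ n, φ (ns n) x = 0 := fun n => by
    by_contra hne
    exact hxΩ ((hφ (ns n)).2.2 (subset_tsupport _ hne))
  simp only [this] at hx
  exact (tendsto_nhds_unique hx tendsto_const_nhds)

lemma H.diff {u : E → ℝ} {G : E → E} (h : H Ω u G) (hΩ : Ω ⊆ Metric.closedBall 0 2)
    {m : ℝ} (hm : 1 ≤ m) :
    eLpNorm (fun x => u x - m * u (m ^ 2 • x)) 2 volume ≤
      ENNReal.ofReal (m - 1) * (eLpNorm u 2 volume + 4 * eLpNorm G 2 volume) := by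
  obtain ⟨hu, hG, φ, hφ, h1, h2⟩ := h
  obtain ⟨ns, hns, hae⟩ := exists_subseq hφ hu h1
  have hc : 0 < m ^ 2 := by positivity
  have hcont : ∀ n, Continuous (fun x => φ n x - m * φ n (m ^ 2 • x)) := by
    intro n
    have := (hφ n).1.continuous
    fun_prop
  have l1 : eLpNorm (fun x => u x - m * u (m ^ 2 • x)) 2 volume ≤
      atTop.liminf fun n => eLpNorm (fun x => φ (ns n) x - m * φ (ns n) (m ^ 2 • x)) 2 volume := by
    refine Lp.eLpNorm_lim_le_liminf_eLpNorm (fun n => (hcont (ns n)).aestronglyMeasurable) _ ?_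
    filter_upwards [hae, (quasi_smul hc).ae hae] with x hx hx2
    exact hx.sub (hx2.const_mul m)
  have l2 : ∀ n, eLpNorm (fun x => φ (ns n) x - m * φ (ns n) (m ^ 2 • x)) 2 volume ≤
      ENNReal.ofReal (m - 1) * ((eLpNorm (fun x => φ (ns n) x - u x) 2 volume + eLpNorm u 2 volume) +
        4 * (eLpNorm (fun x => gradient (φ (ns n)) x - G x) 2 volume + eLpNorm G 2 volume)) := by
    intro n
    refine (diff_eLpNorm (hφ (ns n)).c1 hm).trans (mul_le_mul' le_rfl ?_)
    refine (eta_eLpNorm (hφ (ns n)).c1 ((hφ (ns n)).2.2.trans hΩ)).trans ?_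
    refine add_le_add ?_ (mul_le_mul' le_rfl ?_)
    · have e : φ (ns n) = (fun x => φ (ns n) x - u x) + u := by
        funext x; simp
      conv_lhs => rw [e]
      exact eLpNorm_add_le ((hφ (ns n)).1.continuous.aestronglyMeasurable.sub hu.1) hu.1 (by norm_num)
    · have e : gradient (φ (ns n)) = (fun x => gradient (φ (ns n)) x - G x) + G := by
        funext x; simp
      conv_lhs => rw [e]
      exact eLpNorm_add_le ((hφ (ns n)).cont_grad.aestronglyMeasurable.sub hG.1) hG.1 (by norm_num)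
  have l3 : Tendsto (fun n => ENNReal.ofReal (m - 1) *
      ((eLpNorm (fun x => φ (ns n) x - u x) 2 volume + eLpNorm u 2 volume) +
        4 * (eLpNorm (fun x => gradient (φ (ns n)) x - G x) 2 volume + eLpNorm G 2 volume))) atTop
      (𝓝 (ENNReal.ofReal (m - 1) * ((0 + eLpNorm u 2 volume) + 4 * (0 + eLpNorm G 2 volume)))) := by
    refine ENNReal.Tendsto.const_mul ?_ (Or.inr ENNReal.ofReal_ne_top)
    refine ((h1.comp hns.tendsto_atTop).add tendsto_const_nhds).add ?_
    refine ENNReal.Tendsto.const_mul ?_ (Or.inr (by norm_num))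
    exact (h2.comp hns.tendsto_atTop).add tendsto_const_nhds
  rw [zero_add, zero_add] at l3
  exact l1.trans ((liminf_le_liminf (Eventually.of_forall l2)).trans (le_of_eq l3.liminf_eq))

end Pool.Agent.J4.H76.HS
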