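import Mathlib
import Pool.Agent.J4.H76.HS.Class

set_option autoImplicit false
open MeasureTheory Filter Topology Set
open scoped ENNReal NNReal InnerProductSpace

namespace Pool.Agent.J4.H76.HS

/-- real valued `L^p` norm -/
noncomputable def nrm {F : Type*} [NormedAddCommGroup F] (p : ℝ≥0∞) (f : E → F) : ℝ :=
  (eLpNorm f p volume).toReal

lemma nrm_nonneg {F : Type*} [NormedAddCommGroup F] (p : ℝ≥0∞) (f : E → F) : 0 ≤ nrm p f :=
  ENNReal.toReal_nonneg

lemma nrm_sq {F : Type*} [NormedAddCommGroup F] {f : E → F} (hf : MemLp f 2 volume) :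
    nrm 2 f ^ 2 = ∫ x, ‖f x‖ ^ 2 := by
  have h := sq_eLpNorm hf
  have h2 := congrArg ENNReal.toReal h
  rw [ENNReal.toReal_pow, ENNReal.toReal_ofReal (integral_nonneg fun x => by positivity)] at h2
  exact h2

instance holder_222 : ENNReal.HolderTriple 2 2 1 := by
  constructor
  rw [ENNReal.inv_two_add_inv_two, inv_one]

lemma inv_ofReal (a : ℝ) (ha : 0 < a) : (ENNReal.ofReal a)⁻¹ = ENNReal.ofReal a⁻¹ :=
  (ENNReal.ofReal_inv_of_pos ha).symm

instance holder_663 : ENNReal.HolderTriple 6 6 3 := by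
  constructor
  have h6 : (6 : ℝ≥0∞) = ENNReal.ofReal 6 := by norm_num
  have h3 : (3 : ℝ≥0∞) = ENNReal.ofReal 3 := by norm_num
  rw [h6, h3, inv_ofReal 6 (by norm_num), inv_ofReal 3 (by norm_num),
    ← ENNReal.ofReal_add (by norm_num) (by norm_num)]
  norm_num

instance holder_632 : ENNReal.HolderTriple 6 3 2 := by
  constructor
  have h6 : (6 : ℝ≥0∞) = ENNReal.ofReal 6 := by norm_num
  have h3 : (3 : ℝ≥0∞) = ENNReal.ofReal 3 := by norm_num
  have h2 : (2 : ℝ≥0∞) = ENNReal.ofReal 2 := by norm_num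
  rw [h6, h3, h2, inv_ofReal 6 (by norm_num), inv_ofReal 3 (by norm_num), inv_ofReal 2 (by norm_num),
    ← ENNReal.ofReal_add (by norm_num) (by norm_num)]
  norm_num

lemma holder_mul {p q r : ℝ≥0∞} [ENNReal.HolderTriple p q r] {f g : E → ℝ}
    (hf : MemLp f p volume) (hg : MemLp g q volume) :
    MemLp (fun x => f x * g x) r volume ∧ nrm r (fun x => f x * g x) ≤ nrm p f * nrm q g := by
  have h1 : MemLp (fun x => f x * g x) r volume := MemLp.mul (f := g) (φ := f) hg hf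
  refine ⟨h1, ?_⟩
  have h2 : eLpNorm (fun x => f x * g x) r volume ≤ eLpNorm f p volume * eLpNorm g q volume :=
    eLpNorm_smul_le_mul_eLpNorm (f := g) (φ := f) hg.1 hf.1
  unfold nrm
  rw [← ENNReal.toReal_mul]
  exact ENNReal.toReal_mono (ENNReal.mul_lt_top hf.2 hg.2).ne h2

lemma cs {f g : E → ℝ} (hf : MemLp f 2 volume) (hg : MemLp g 2 volume) :
    Integrable (fun x => f x * g x) ∧ |∫ x, f x * g x| ≤ nrm 2 f * nrm 2 g := by
  obtain ⟨h1, h2⟩ := holder_mul (r := 1) hf hg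
  have hi := memLp_one_iff_integrable.1 h1
  refine ⟨hi, le_trans ?_ h2⟩
  rw [nrm, eLpNorm_one_eq_lintegral_enorm, ← integral_norm_eq_lintegral_enorm hi.1]
  have := norm_integral_le_integral_norm (μ := volume) (fun x : E => f x * g x)
  rwa [Real.norm_eq_abs] at this

lemma cs_inner {f g : E → E} (hf : MemLp f 2 volume) (hg : MemLp g 2 volume) :
    Integrable (fun x => inner ℝ (f x) (g x)) ∧ |∫ x, inner ℝ (f x) (g x)| ≤ nrm 2 f * nrm 2 g := by
  obtain ⟨h1, h2⟩ := cs hf.norm hg.norm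
  have e1 : nrm 2 (fun x => ‖f x‖) = nrm 2 f := by
    unfold nrm; rw [eLpNorm_norm]
  have e2 : nrm 2 (fun x => ‖g x‖) = nrm 2 g := by
    unfold nrm; rw [eLpNorm_norm]
  rw [e1, e2] at h2
  have hi : Integrable (fun x => inner ℝ (f x) (g x)) := by
    refine Integrable.mono' h1 (hf.1.inner hg.1) (Eventually.of_forall fun x => ?_)
    rw [Real.norm_eq_abs]
    exact abs_real_inner_le_norm _ _
  refine ⟨hi, ?_⟩
  refine le_trans ?_ (le_trans (le_abs_self _) h2)
  have := norm_integral_le_integral_norm (μ := volume) (fun x : E => inner ℝ (f x) (g x))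
  rw [Real.norm_eq_abs] at this
  refine this.trans (integral_mono hi.norm h1 fun x => ?_)
  simp only [Real.norm_eq_abs]
  exact abs_real_inner_le_norm _ _

/-- integrability of intermediate powers -/
lemma int_pow {u : E → ℝ} (h2 : MemLp u 2 volume) (h6 : MemLp u 6 volume) {j : ℕ} (hj2 : 2 ≤ j)
    (hj6 : j ≤ 6) : Integrable (fun x => u x ^ j) := by
  have i2 : Integrable (fun x => ‖u x‖ ^ 2) := h2.integrable_norm_pow (by norm_num)
  have i6 : Integrable (fun x => ‖u x‖ ^ 6) := h6.integrable_norm_pow (by norm_num)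
  refine Integrable.mono' (i2.add i6) (h2.1.pow j) (Eventually.of_forall fun x => ?_)
  rw [norm_pow]
  simp only [Pi.add_apply]
  rcases le_total ‖u x‖ 1 with h | h
  · have : ‖u x‖ ^ j ≤ ‖u x‖ ^ 2 := pow_le_pow_of_le_one (norm_nonneg _) h hj2
    have : 0 ≤ ‖u x‖ ^ 6 := by positivity
    linarith
  · have : ‖u x‖ ^ j ≤ ‖u x‖ ^ 6 := pow_le_pow_right₀ h hj6
    have : 0 ≤ ‖u x‖ ^ 2 := by positivity
    linarith

lemma memLp_three {u : E → ℝ} (h2 : MemLp u 2 volume) (h6 : MemLp u 6 volume) :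
    MemLp u 3 volume := by
  rw [← integrable_norm_rpow_iff h2.1 (by norm_num) (by norm_num)]
  have h3 : (3 : ℝ≥0∞).toReal = ((3 : ℕ) : ℝ) := by norm_num
  rw [h3]
  simp only [Real.rpow_natCast]
  have i2 : Integrable (fun x => ‖u x‖ ^ 2) := h2.integrable_norm_pow (by norm_num)
  have i6 : Integrable (fun x => ‖u x‖ ^ 6) := h6.integrable_norm_pow (by norm_num)
  refine Integrable.mono' (i2.add i6) (h2.1.norm.pow 3) (Eventually.of_forall fun x => ?_)
  rw [norm_pow, norm_norm]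
  simp only [Pi.add_apply]
  rcases le_total ‖u x‖ 1 with h | h
  · have : ‖u x‖ ^ 3 ≤ ‖u x‖ ^ 2 := pow_le_pow_of_le_one (norm_nonneg _) h (by norm_num)
    have : 0 ≤ ‖u x‖ ^ 6 := by positivity
    linarith
  · have : ‖u x‖ ^ 3 ≤ ‖u x‖ ^ 6 := pow_le_pow_right₀ h (by norm_num)
    have : 0 ≤ ‖u x‖ ^ 2 := by positivity
    linarith

/-- `u² ≤ (small in L³) + constant` -/
lemma split_sq {u : E → ℝ} (h6 : MemLp u 6 volume) {δ : ℝ} (hδ : 0 < δ) :
    ∃ (M : ℝ) (K : E → ℝ), 0 ≤ M ∧ MemLp K 3 volume ∧ (∀ x, 0 ≤ K x) ∧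
      eLpNorm K 3 volume ≤ ENNReal.ofReal δ ∧ ∀ᵐ x, u x ^ 2 ≤ K x + M := by
  obtain ⟨v, hv⟩ : ∃ v, v = h6.1.mk u := ⟨_, rfl⟩
  have hvm : StronglyMeasurable v := by rw [hv]; exact h6.1.stronglyMeasurable_mk
  have hae : u =ᵐ[volume] v := by rw [hv]; exact h6.1.ae_eq_mk
  have hv6 : MemLp v 6 volume := h6.ae_eq hae
  have hsq : MemLp (fun x => v x * v x) 3 volume := (holder_mul hv6 hv6).1
  obtain ⟨M, hM⟩ := hsq.eLpNorm_indicator_norm_ge_le (hvm.mul hvm) hδ
  refine ⟨max M 0, {x | M ≤ ‖v x * v x‖₊}.indicator (fun x => v x * v x), le_max_right _ _, ?_, ?_,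
    hM, ?_⟩
  · refine hsq.indicator ?_
    have : Measurable (fun x => (‖v x * v x‖₊ : ℝ)) := (hvm.mul hvm).measurable.nnnorm.coe_nnreal_real
    exact this measurableSet_Ici
  · intro x
    exact indicator_nonneg (fun x _ => mul_self_nonneg _) x
  · filter_upwards [hae] with x hx
    rw [hx]
    by_cases h : M ≤ ‖v x * v x‖₊
    · rw [indicator_of_mem (by exact h)]
      have := le_max_right M 0
      nlinarith
    · rw [indicator_of_notMem (by exact h)]
      push Not at h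
      have h2 : ‖v x * v x‖ < M := h
      rw [Real.norm_eq_abs] at h2
      have := le_max_left M 0
      have := le_abs_self (v x * v x)
      nlinarith

end Pool.Agent.J4.H76.HS
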