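import Mathlib
import Pool.Agent.J4.H76.HS.Ineq

set_option autoImplicit false
open MeasureTheory Filter Topology Set
open scoped ENNReal NNReal InnerProductSpace

namespace Pool.Agent.J4.H76.HS

variable {Ω : Set E}

/-- properties of `H¹₀` functions -/
lemma H.props {C : ℝ≥0} (hC : ∀ (Ω : Set E) (u : E → ℝ) (G : E → E), H Ω u G →
    eLpNorm u 6 volume ≤ C * eLpNorm G 2 volume) {w : E → ℝ} {K : E → E} (h : H Ω w K) :
    MemLp w 6 volume ∧ MemLp (fun x => w x * ‖x‖⁻¹) 2 volume ∧ nrm 6 w ≤ C * nrm 2 K ∧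
      nrm 2 (fun x => w x * ‖x‖⁻¹) ≤ 2 * nrm 2 K := by
  have h1 := hC Ω w K h
  have h2 := hardy_H h
  have f1 : (C : ℝ≥0∞) * eLpNorm K 2 volume < ∞ := ENNReal.mul_lt_top ENNReal.coe_lt_top h.2.1.2
  have f2 : (2 : ℝ≥0∞) * eLpNorm K 2 volume < ∞ := ENNReal.mul_lt_top (by norm_num) h.2.1.2
  refine ⟨⟨h.1.1, h1.trans_lt f1⟩, ⟨h.1.1.mul measurable_norm.inv.aestronglyMeasurable,
    h2.trans_lt f2⟩, ?_, ?_⟩
  · have := ENNReal.toReal_mono f1.ne h1
    rwa [ENNReal.toReal_mul, ENNReal.coe_toReal] at this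
  · have := ENNReal.toReal_mono f2.ne h2
    rwa [ENNReal.toReal_mul, ENNReal.toReal_ofNat] at this

/-- the three terms of the weak form -/
noncomputable def I1 (G K : E → E) : ℝ := ∫ x, inner ℝ (G x) (K x)
noncomputable def I2 (u w : E → ℝ) : ℝ := ∫ x, u x ^ 4 * w x
noncomputable def I3 (u w : E → ℝ) : ℝ := ∫ x, u x ^ 3 * (w x * ‖x‖⁻¹)

/-- the weak form, extended to all of `H¹₀` -/
lemma weak_ext {u : E → ℝ} {G : E → E} (h : H Ω u G)
    (hw : ∀ ψ, T Ω ψ → ∫ x, (inner ℝ (G x) (gradient ψ x) + u x ^ 4 * ψ x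
      - u x ^ 3 * ψ x / ‖x‖) = 0) {w : E → ℝ} {K : E → E} (h' : H Ω w K) :
    Integrable (fun x => inner ℝ (G x) (K x)) ∧ Integrable (fun x => u x ^ 4 * w x) ∧
    Integrable (fun x => u x ^ 3 * (w x * ‖x‖⁻¹)) ∧
    I1 G K + I2 u w - I3 u w = 0 := by
  obtain ⟨C, hC⟩ := sobolev_H
  obtain ⟨u6, u2ρ, -, -⟩ := h.props hC
  have u3 : MemLp u 3 volume := memLp_three h.1 u6
  have usq : MemLp (fun x => u x * u x) 3 volume := (holder_mul u6 u6).1
  have ucu : MemLp (fun x => u x ^ 3) 2 volume := by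
    have := (holder_mul (r := 2) u6 usq).1
    refine this.ae_eq (Eventually.of_forall fun x => ?_)
    simp only
    ring
  -- bounds for the three terms
  have bd : ∀ (w : E → ℝ) (K : E → E), H Ω w K →
      Integrable (fun x => inner ℝ (G x) (K x)) ∧ Integrable (fun x => u x ^ 4 * w x) ∧
      Integrable (fun x => u x ^ 3 * (w x * ‖x‖⁻¹)) ∧
      |I1 G K + I2 u w - I3 u w| ≤
        (nrm 2 G + nrm 2 (fun x => u x ^ 3) * (C * nrm 3 u) + nrm 2 (fun x => u x ^ 3) * 2) *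
          nrm 2 K := by
    intro w K hwK
    obtain ⟨w6, wρ, n6, nρ⟩ := hwK.props hC
    obtain ⟨i1, b1⟩ := cs_inner h.2.1 hwK.2.1
    obtain ⟨wu, b2'⟩ := holder_mul (r := 2) w6 u3
    obtain ⟨i2, b2⟩ := cs ucu wu
    obtain ⟨i3, b3⟩ := cs ucu wρ
    have e2 : (fun x => u x ^ 3 * (w x * u x)) = fun x => u x ^ 4 * w x := by
      funext x; ring
    rw [e2] at i2
    have e2' : ∫ x, u x ^ 3 * (w x * u x) = I2 u w := by
      rw [e2]; rfl
    rw [e2'] at b2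
    refine ⟨i1, i2, i3, ?_⟩
    have b1' : |I1 G K| ≤ nrm 2 G * nrm 2 K := b1
    have b3' : |I3 u w| ≤ nrm 2 (fun x => u x ^ 3) * nrm 2 (fun x => w x * ‖x‖⁻¹) := b3
    have t1 := abs_sub (I1 G K + I2 u w) (I3 u w)
    have t2 := abs_add_le (I1 G K) (I2 u w)
    have p0 := nrm_nonneg 2 (fun x => u x ^ 3)
    have p1 := nrm_nonneg 3 u
    have p2 := nrm_nonneg 2 K
    have c2 : nrm 2 (fun x => u x ^ 3) * nrm 2 (fun x => w x * u x) ≤
        nrm 2 (fun x => u x ^ 3) * (C * nrm 2 K * nrm 3 u) := by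
      refine mul_le_mul_of_nonneg_left (b2'.trans ?_) p0
      exact mul_le_mul_of_nonneg_right n6 p1
    have c3 : nrm 2 (fun x => u x ^ 3) * nrm 2 (fun x => w x * ‖x‖⁻¹) ≤
        nrm 2 (fun x => u x ^ 3) * (2 * nrm 2 K) := mul_le_mul_of_nonneg_left nρ p0
    have e : (nrm 2 G + nrm 2 (fun x => u x ^ 3) * (C * nrm 3 u) + nrm 2 (fun x => u x ^ 3) * 2) *
          nrm 2 K = nrm 2 G * nrm 2 K + nrm 2 (fun x => u x ^ 3) * (C * nrm 2 K * nrm 3 u) +
          nrm 2 (fun x => u x ^ 3) * (2 * nrm 2 K) := by ring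
    rw [e]
    linarith
  obtain ⟨i1, i2, i3, -⟩ := bd w K h'
  refine ⟨i1, i2, i3, ?_⟩
  obtain ⟨B, hB⟩ : ∃ B, B = (nrm 2 G + nrm 2 (fun x => u x ^ 3) * (C * nrm 3 u) +
    nrm 2 (fun x => u x ^ 3) * 2) := ⟨_, rfl⟩
  rw [← hB] at bd
  -- approximate
  have h'' := h'
  obtain ⟨hw2, hK, φ, hφ, h1, h2⟩ := h'
  have key : ∀ n, |I1 G K + I2 u w - I3 u w| ≤
      B * nrm 2 (fun x => gradient (φ n) x - K x) := by
    intro n
    have hs : H Ω (fun x => φ n x - w x) (fun x => gradient (φ n) x - K x) := (hφ n).H.sub h''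
    obtain ⟨-, -, -, b⟩ := bd _ _ hs
    obtain ⟨j1, j2, j3, -⟩ := bd _ _ (hφ n).H
    have e1 : I1 G (fun x => gradient (φ n) x - K x) = I1 G (gradient (φ n)) - I1 G K := by
      unfold I1
      rw [← integral_sub j1 i1]
      simp only [inner_sub_right]
    have e2 : I2 u (fun x => φ n x - w x) = I2 u (φ n) - I2 u w := by
      unfold I2
      rw [← integral_sub j2 i2]
      simp only [mul_sub]
    have e3 : I3 u (fun x => φ n x - w x) = I3 u (φ n) - I3 u w := by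
      unfold I3
      rw [← integral_sub j3 i3]
      congr 1
      funext x
      ring
    have e4 := hw (φ n) (hφ n)
    have e5 : ∫ x, (inner ℝ (G x) (gradient (φ n) x) + u x ^ 4 * φ n x
      - u x ^ 3 * φ n x / ‖x‖) = I1 G (gradient (φ n)) + I2 u (φ n) - I3 u (φ n) := by
      unfold I1 I2 I3
      have jj : Integrable (fun x => inner ℝ (G x) (gradient (φ n) x) + u x ^ 4 * φ n x) := j1.add j2
      rw [← integral_add j1 j2, ← integral_sub jj j3]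
      congr 1
      funext x
      rw [div_eq_mul_inv]
      ring
    rw [e5] at e4
    rw [e1, e2, e3] at b
    have e6 : (I1 G (gradient (φ n)) - I1 G K) + (I2 u (φ n) - I2 u w) - (I3 u (φ n) - I3 u w) =
        - (I1 G K + I2 u w - I3 u w) := by
      linarith
    rw [e6, abs_neg] at b
    exact b
  have hlim : Tendsto (fun n => B * nrm 2 (fun x => gradient (φ n) x - K x)) atTop (𝓝 0) := by
    have : Tendsto (fun n => nrm 2 (fun x => gradient (φ n) x - K x)) atTop (𝓝 0) := by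
      have := (ENNReal.tendsto_toReal (by norm_num : (0 : ℝ≥0∞) ≠ ∞)).comp h2
      rw [ENNReal.toReal_zero] at this
      exact this
    have := this.const_mul B
    rwa [mul_zero] at this
  have h0 : |I1 G K + I2 u w - I3 u w| ≤ 0 := ge_of_tendsto' hlim key
  exact abs_eq_zero.1 (le_antisymm h0 (abs_nonneg _))


/-- the scaled remainder has the same `L³` norm -/
lemma scaled_K {K : E → ℝ} (hK : MemLp K 3 volume) {m : ℝ} (hm : 1 ≤ m) :
    MemLp (fun x => m ^ 2 * K (m ^ 2 • x)) 3 volume ∧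
      eLpNorm (fun x => m ^ 2 * K (m ^ 2 • x)) 3 volume = eLpNorm K 3 volume := by
  have hc : 0 < m ^ 2 := by positivity
  refine ⟨(memLp_dil hc (by norm_num) hK).const_mul _, ?_⟩
  have e : (fun x => m ^ 2 * K (m ^ 2 • x)) = (m ^ 2) • (fun x => K (m ^ 2 • x)) := by
    funext x; simp
  rw [e, eLpNorm_const_smul, eLpNorm_dil K hc 3 (by norm_num), ← mul_assoc]
  have h1 : ‖m ^ 2‖ₑ * ENNReal.ofReal (((m ^ 2) ^ 3)⁻¹) ^ (1 / (3 : ℝ≥0∞)).toReal = 1 := by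
    have h2 : ‖m ^ 2‖ₑ = ENNReal.ofReal (m ^ 2) := by
      rw [← ofReal_norm, Real.norm_eq_abs, abs_of_pos hc]
    have h3 : (1 / (3 : ℝ≥0∞)).toReal = 1 / 3 := by
      rw [ENNReal.toReal_div]; norm_num
    rw [h2, h3, ENNReal.ofReal_rpow_of_nonneg (by positivity) (by norm_num),
      ← ENNReal.ofReal_mul hc.le]
    have h4 : (((m ^ 2) ^ 3)⁻¹ : ℝ) ^ (1 / 3 : ℝ) = (m ^ 2)⁻¹ := by
      rw [← inv_pow, one_div]
      have := Real.pow_rpow_inv_natCast (x := (m ^ 2)⁻¹) (n := 3) (by positivity) (by norm_num)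
      exact_mod_cast this
    rw [h4, mul_inv_cancel₀ hc.ne', ENNReal.ofReal_one]
  rw [h1, one_mul]

/-- the main inequality -/
lemma main_ineq (hstar : ∀ y ∈ Ω, ∀ t : ℝ, 0 < t → t ≤ 1 → t • y ∈ Ω)
    (hΩ : Ω ⊆ Metric.closedBall 0 2) {u : E → ℝ} {G : E → E} (h : H Ω u G)
    (hpos : ∀ᵐ x, 0 ≤ u x)
    (hw : ∀ ψ, T Ω ψ → ∫ x, (inner ℝ (G x) (gradient ψ x) + u x ^ 4 * ψ x
      - u x ^ 3 * ψ x / ‖x‖) = 0) :
    ∃ B : ℝ, ∀ m : ℝ, 1 < m → m ≤ 2 → (∫ x, u x ^ 5) ≤ B * (m - 1) := by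
  obtain ⟨C, hC⟩ := sobolev_H
  obtain ⟨u6, uρ, -, -⟩ := h.props hC
  have u3 : MemLp u 3 volume := memLp_three h.1 u6
  have usq : MemLp (fun x => u x * u x) 3 volume := (holder_mul u6 u6).1
  have ucu : MemLp (fun x => u x ^ 3) 2 volume := by
    have := (holder_mul (r := 2) u6 usq).1
    refine this.ae_eq (Eventually.of_forall fun x => ?_)
    simp only
    ring
  obtain ⟨δ, hδ⟩ : ∃ δ : ℝ, δ = 1 / (16 * ((C : ℝ) + 1)) := ⟨_, rfl⟩
  have hC0 : (0 : ℝ) ≤ C := C.2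
  have hδ0 : 0 < δ := by rw [hδ]; positivity
  have hδC : 4 * C * δ ≤ 1 / 4 := by
    rw [hδ, mul_one_div, div_le_div_iff₀ (by positivity) (by norm_num)]
    linarith
  obtain ⟨M, K0, hM, hK3, hK0, hKn, hKu⟩ := split_sq u6 hδ0
  obtain ⟨L, hL⟩ : ∃ L, L = nrm 2 u + 4 * nrm 2 G := ⟨_, rfl⟩
  refine ⟨10 * (100 * M ^ 2) * L ^ 2, fun m hm1 hm2 => ?_⟩
  have hm : 1 ≤ m := hm1.le
  have hm0 : 0 < m := by linarith
  have hc : 0 < m ^ 2 := by positivity
  -- the dilated pair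
  obtain ⟨v, hv⟩ : ∃ v : E → ℝ, v = fun x => m * u (m ^ 2 • x) := ⟨_, rfl⟩
  obtain ⟨Gv, hGv⟩ : ∃ Gv : E → E, Gv = fun x => m ^ 3 • G (m ^ 2 • x) := ⟨_, rfl⟩
  have hvH : H Ω v Gv := by rw [hv, hGv]; exact h.dil hstar hm
  obtain ⟨v6, vρ, -, -⟩ := hvH.props hC
  have vsq : MemLp (fun x => v x * v x) 3 volume := (holder_mul v6 v6).1
  have vcu : MemLp (fun x => v x ^ 3) 2 volume := by
    have := (holder_mul (r := 2) v6 vsq).1
    refine this.ae_eq (Eventually.of_forall fun x => ?_)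
    simp only
    ring
  obtain ⟨w, hwdef⟩ : ∃ w : E → ℝ, w = fun x => u x - v x := ⟨_, rfl⟩
  obtain ⟨K, hK⟩ : ∃ K : E → E, K = fun x => G x - Gv x := ⟨_, rfl⟩
  have hwH : H Ω w K := by rw [hwdef, hK]; exact h.sub hvH
  obtain ⟨w6, wρ, n6, nρ⟩ := hwH.props hC
  obtain ⟨i1, i2, i3, hzero⟩ := weak_ext h hw hwH
  -- `E1`
  have E1 : I1 G K = (1 / 2) * nrm 2 K ^ 2 := by
    rw [nrm_sq hwH.2.1]
    have jG : Integrable (fun x => ‖G x‖ ^ 2) := h.2.1.integrable_norm_pow (by norm_num)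
    have jGv : Integrable (fun x => ‖Gv x‖ ^ 2) := hvH.2.1.integrable_norm_pow (by norm_num)
    have eq1 : ∫ x, ‖Gv x‖ ^ 2 = ∫ x, ‖G x‖ ^ 2 := by
      have e : ∀ x, ‖Gv x‖ ^ 2 = m ^ 6 * ‖G (m ^ 2 • x)‖ ^ 2 := by
        intro x
        rw [hGv, norm_smul, mul_pow, Real.norm_eq_abs, abs_of_pos (by positivity)]
        ring
      simp only [e]
      rw [integral_const_mul, integral_dil hc (fun y => ‖G y‖ ^ 2)]
      field_simp
    have eq2 : ∀ x, ‖K x‖ ^ 2 = 2 * inner ℝ (G x) (K x) + (‖Gv x‖ ^ 2 - ‖G x‖ ^ 2) := by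
      intro x
      rw [hK]
      simp only
      rw [inner_sub_right, real_inner_self_eq_norm_sq, norm_sub_sq_real]
      ring
    simp only [eq2]
    have jsub : Integrable (fun x => ‖Gv x‖ ^ 2 - ‖G x‖ ^ 2) := jGv.sub jG
    rw [integral_add (i1.const_mul 2) jsub, integral_const_mul, integral_sub jGv jG, eq1]
    unfold I1
    ring
  -- `E2`
  have hposv : ∀ᵐ x, 0 ≤ v x := by
    filter_upwards [(quasi_smul hc).ae hpos] with x hx
    rw [hv]
    exact mul_nonneg hm0.le hx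
  have ju5 : Integrable (fun x => u x ^ 5) := int_pow h.1 u6 (by norm_num) (by norm_num)
  have jv5 : Integrable (fun x => v x ^ 5) := int_pow hvH.1 v6 (by norm_num) (by norm_num)
  have E2 : (1 / 5) * ((∫ x, u x ^ 5) - (∫ x, v x ^ 5)) ≤ I2 u w := by
    unfold I2
    rw [← integral_sub ju5 jv5, ← integral_const_mul]
    refine integral_mono_ae ((ju5.sub jv5).const_mul _) i2 ?_
    filter_upwards [hpos, hposv] with x hx hx'
    rw [hwdef]
    simp only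
    have key : 0 ≤ (u x - v x) ^ 2 * (4 * u x ^ 3 + 3 * u x ^ 2 * v x + 2 * u x * v x ^ 2 + v x ^ 3) := by
      positivity
    nlinarith
  have E2' : (∫ x, v x ^ 5) = m⁻¹ * ∫ x, u x ^ 5 := by
    have e : ∀ x, v x ^ 5 = m ^ 5 * u (m ^ 2 • x) ^ 5 := by
      intro x
      rw [hv, mul_pow]
    simp only [e]
    rw [integral_const_mul, integral_dil hc (fun y => u y ^ 5)]
    field_simp
  -- `E3`
  have j4u := (cs ucu uρ).1
  have j4v := (cs vcu vρ).1
  have j4 : Integrable (fun x => u x ^ 3 * (u x * ‖x‖⁻¹) - v x ^ 3 * (v x * ‖x‖⁻¹)) := j4u.sub j4v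
  have hsum3 : MemLp (fun x => u x ^ 2 + v x ^ 2) 3 volume := by
    refine (usq.add vsq).ae_eq (Eventually.of_forall fun x => ?_)
    simp only [Pi.add_apply]
    ring
  obtain ⟨hwuv, -⟩ := holder_mul (r := 2) w6 hsum3
  obtain ⟨j5, -⟩ := cs hwuv wρ
  have E3 : I3 u w ≤ ∫ x, (w x * (u x ^ 2 + v x ^ 2)) * (w x * ‖x‖⁻¹) := by
    have eq4 : ∫ x, v x ^ 3 * (v x * ‖x‖⁻¹) = ∫ x, u x ^ 3 * (u x * ‖x‖⁻¹) := by
      have e : ∀ x, v x ^ 3 * (v x * ‖x‖⁻¹) =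
          m ^ 6 * (u (m ^ 2 • x) ^ 3 * (u (m ^ 2 • x) * ‖m ^ 2 • x‖⁻¹)) := by
        intro x
        rw [hv, norm_smul, Real.norm_eq_abs, abs_of_pos hc, mul_inv]
        field_simp
      simp only [e]
      rw [integral_const_mul, integral_dil hc (fun y => u y ^ 3 * (u y * ‖y‖⁻¹))]
      field_simp
    have eq5 : ∫ x, ((1 / 4) * (u x ^ 3 * (u x * ‖x‖⁻¹) - v x ^ 3 * (v x * ‖x‖⁻¹)) +
        (w x * (u x ^ 2 + v x ^ 2)) * (w x * ‖x‖⁻¹)) =
        ∫ x, (w x * (u x ^ 2 + v x ^ 2)) * (w x * ‖x‖⁻¹) := by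
      rw [integral_add (j4.const_mul _) j5, integral_const_mul, integral_sub j4u j4v, eq4]
      ring
    rw [← eq5]
    unfold I3
    refine integral_mono i3 ((j4.const_mul _).add j5) fun x => ?_
    rw [hwdef]
    simp only
    have key : 0 ≤ (1 / 4) * ((u x - v x) ^ 2 * ((u x - v x) ^ 2 + 2 * v x ^ 2)) * ‖x‖⁻¹ := by
      positivity
    nlinarith
  have E4 : (∫ x, (w x * (u x ^ 2 + v x ^ 2)) * (w x * ‖x‖⁻¹)) ≤
      (1 / 2) * nrm 2 K ^ 2 + 100 * M ^ 2 * nrm 2 w ^ 2 := by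
    obtain ⟨hKv, hKvn⟩ := scaled_K hK3 hm
    obtain ⟨Kv, hKvdef⟩ : ∃ Kv : E → ℝ, Kv = fun x => m ^ 2 * K0 (m ^ 2 • x) := ⟨_, rfl⟩
    rw [← hKvdef] at hKv hKvn
    have hKv0 : ∀ x, 0 ≤ Kv x := fun x => by rw [hKvdef]; exact mul_nonneg hc.le (hK0 _)
    have hvle : ∀ᵐ x, v x ^ 2 ≤ Kv x + 4 * M := by
      filter_upwards [(quasi_smul hc).ae hKu] with x hx
      rw [hv, hKvdef]
      simp only
      have : m ^ 2 * u (m ^ 2 • x) ^ 2 ≤ m ^ 2 * (K0 (m ^ 2 • x) + M) := mul_le_mul_of_nonneg_left hx hc.le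
      have hm4 : m ^ 2 ≤ 4 := by nlinarith
      nlinarith
    have hKsum : MemLp (fun x => K0 x + Kv x) 3 volume := hK3.add hKv
    have hKsumn : nrm 3 (fun x => K0 x + Kv x) ≤ 2 * δ := by
      have h1 : eLpNorm (fun x => K0 x + Kv x) 3 volume ≤ ENNReal.ofReal (2 * δ) := by
        refine (eLpNorm_add_le hK3.1 hKv.1 (by norm_num)).trans ?_
        rw [hKvn, two_mul, ENNReal.ofReal_add hδ0.le hδ0.le]
        exact add_le_add hKn hKn
      have h2 := ENNReal.toReal_mono ENNReal.ofReal_ne_top h1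
      rwa [ENNReal.toReal_ofReal (by positivity)] at h2
    have w6a : MemLp (fun x => |w x|) 6 volume := w6.norm
    obtain ⟨a1, a2⟩ := holder_mul (r := 2) w6a hKsum
    have wρa : MemLp (fun x => |w x * ‖x‖⁻¹|) 2 volume := wρ.norm
    obtain ⟨a3, a4⟩ := cs a1 wρa
    have e6 : nrm 6 (fun x => |w x|) = nrm 6 w := by
      unfold nrm; exact congrArg _ (eLpNorm_norm w)
    have e7 : nrm 2 (fun x => |w x * ‖x‖⁻¹|) = nrm 2 (fun x => w x * ‖x‖⁻¹) := by
      unfold nrm; exact congrArg _ (eLpNorm_norm (fun x => w x * ‖x‖⁻¹))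
    rw [e6] at a2
    rw [e7] at a4
    have jw2 : Integrable (fun x => w x ^ 2) := int_pow hwH.1 w6 (by norm_num) (by norm_num)
    have jwρ2 : Integrable (fun x => (w x * ‖x‖⁻¹) ^ 2) := by
      have := wρ.integrable_norm_pow (p := 2) (by norm_num)
      refine this.congr (Eventually.of_forall fun x => ?_)
      simp only [Real.norm_eq_abs, sq_abs]
    have jtail : Integrable (fun x => (1 / 16) * (w x * ‖x‖⁻¹) ^ 2 + 100 * M ^ 2 * w x ^ 2) :=
      (jwρ2.const_mul _).add (jw2.const_mul _)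
    have hle : (∫ x, (w x * (u x ^ 2 + v x ^ 2)) * (w x * ‖x‖⁻¹)) ≤
        ∫ x, ((|w x| * (K0 x + Kv x)) * |w x * ‖x‖⁻¹| +
          ((1 / 16) * (w x * ‖x‖⁻¹) ^ 2 + 100 * M ^ 2 * w x ^ 2)) := by
      refine integral_mono_ae j5 (a3.add jtail) ?_
      filter_upwards [hKu, hvle] with x hx hx'
      have q1 : 0 ≤ ‖x‖⁻¹ := by positivity
      obtain ⟨r, hr⟩ : ∃ r, r = ‖x‖⁻¹ := ⟨_, rfl⟩
      rw [← hr] at q1 ⊢
      have q2 : |w x * r| = |w x| * r := by rw [abs_mul, abs_of_nonneg q1]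
      rw [q2]
      have q3 : |w x| * |w x| = w x * w x := abs_mul_abs_self _
      have q4 : (|w x| * (K0 x + Kv x)) * (|w x| * r) = (w x * w x) * (K0 x + Kv x) * r := by
        rw [← q3]; ring
      rw [q4]
      have q5 : (w x * (u x ^ 2 + v x ^ 2)) * (w x * r) ≤ (w x * w x) * (K0 x + Kv x + 5 * M) * r := by
        have : (w x * w x * r) * (u x ^ 2 + v x ^ 2) ≤ (w x * w x * r) * (K0 x + Kv x + 5 * M) := by
          refine mul_le_mul_of_nonneg_left (by linarith) ?_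
          exact mul_nonneg (mul_self_nonneg _) q1
        linarith
      have q6 : (w x * w x) * (5 * M) * r ≤ (1 / 16) * (w x * r) ^ 2 + 100 * M ^ 2 * w x ^ 2 := by
        have : 0 ≤ ((1 / 4) * (w x * r) - 10 * M * w x) ^ 2 := sq_nonneg _
        nlinarith
      linarith
    have hsplit : ∫ x, ((|w x| * (K0 x + Kv x)) * |w x * ‖x‖⁻¹| +
          ((1 / 16) * (w x * ‖x‖⁻¹) ^ 2 + 100 * M ^ 2 * w x ^ 2)) =
        (∫ x, (|w x| * (K0 x + Kv x)) * |w x * ‖x‖⁻¹|) +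
          ((1 / 16) * (∫ x, (w x * ‖x‖⁻¹) ^ 2) + 100 * M ^ 2 * ∫ x, w x ^ 2) := by
      rw [integral_add a3 jtail, integral_add (jwρ2.const_mul _) (jw2.const_mul _),
        integral_const_mul, integral_const_mul]
    have s1 : ∫ x, (w x * ‖x‖⁻¹) ^ 2 = nrm 2 (fun x => w x * ‖x‖⁻¹) ^ 2 := by
      rw [nrm_sq wρ]
      simp only [Real.norm_eq_abs, sq_abs]
    have s2 : ∫ x, w x ^ 2 = nrm 2 w ^ 2 := by
      rw [nrm_sq hwH.1]
      simp only [Real.norm_eq_abs, sq_abs]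
    rw [hsplit, s1, s2] at hle
    have pK := nrm_nonneg 2 K
    have pρ := nrm_nonneg 2 (fun x => w x * ‖x‖⁻¹)
    have pw := nrm_nonneg 6 w
    have t1 : (∫ x, (|w x| * (K0 x + Kv x)) * |w x * ‖x‖⁻¹|) ≤ (1 / 4) * nrm 2 K ^ 2 := by
      have p1 := (le_abs_self _).trans a4
      have p2 : nrm 2 (fun x => |w x| * (K0 x + Kv x)) ≤ (C * nrm 2 K) * (2 * δ) := by
        refine a2.trans (mul_le_mul n6 hKsumn (nrm_nonneg _ _) (by positivity))
      have p3 : nrm 2 (fun x => |w x| * (K0 x + Kv x)) * nrm 2 (fun x => w x * ‖x‖⁻¹) ≤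
          ((C * nrm 2 K) * (2 * δ)) * (2 * nrm 2 K) :=
        mul_le_mul p2 nρ pρ (by positivity)
      have p4 : ((C * nrm 2 K) * (2 * δ)) * (2 * nrm 2 K) = (4 * C * δ) * nrm 2 K ^ 2 := by ring
      have p5 : (4 * C * δ) * nrm 2 K ^ 2 ≤ (1 / 4) * nrm 2 K ^ 2 :=
        mul_le_mul_of_nonneg_right hδC (sq_nonneg _)
      linarith
    have t2 : nrm 2 (fun x => w x * ‖x‖⁻¹) ^ 2 ≤ 4 * nrm 2 K ^ 2 := by
      have := pow_le_pow_left₀ pρ nρ 2
      rw [mul_pow] at this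
      linarith
    linarith
  have E5 : nrm 2 w ≤ (m - 1) * L := by
    have h1 := h.diff hΩ hm
    have e : (fun x => u x - m * u (m ^ 2 • x)) = w := by rw [hwdef, hv]
    rw [e] at h1
    have hfin : ENNReal.ofReal (m - 1) * (eLpNorm u 2 volume + 4 * eLpNorm G 2 volume) ≠ ∞ := by
      refine ENNReal.mul_ne_top ENNReal.ofReal_ne_top (ENNReal.add_ne_top.2 ⟨h.1.2.ne, ?_⟩)
      exact ENNReal.mul_ne_top (by norm_num) h.2.1.2.ne
    have h2 := ENNReal.toReal_mono hfin h1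
    rw [ENNReal.toReal_mul, ENNReal.toReal_ofReal (by linarith), ENNReal.toReal_add h.1.2.ne
      (ENNReal.mul_ne_top (by norm_num) h.2.1.2.ne), ENNReal.toReal_mul, ENNReal.toReal_ofNat] at h2
    rw [hL]
    exact h2
  -- conclusion
  have hL0 : 0 ≤ L := by
    rw [hL]; have := nrm_nonneg 2 u; have := nrm_nonneg 2 G; positivity
  have hw0 := nrm_nonneg 2 w
  have f1 : I2 u w ≤ 100 * M ^ 2 * nrm 2 w ^ 2 := by linarith
  have f2 : nrm 2 w ^ 2 ≤ ((m - 1) * L) ^ 2 := pow_le_pow_left₀ hw0 E5 2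
  obtain ⟨S, hS⟩ : ∃ S, S = ∫ x, u x ^ 5 := ⟨_, rfl⟩
  have hS0 : 0 ≤ S := by
    rw [hS]
    refine integral_nonneg_of_ae ?_
    filter_upwards [hpos] with x hx
    exact pow_nonneg hx 5
  rw [E2', ← hS] at E2
  rw [← hS]
  have hinv : (m - 1) / 2 ≤ 1 - m⁻¹ := by
    have : 1 - m⁻¹ = (m - 1) / m := by field_simp
    rw [this]
    exact div_le_div_of_nonneg_left (by linarith) hm0 hm2
  have f3 : (1 / 5) * ((m - 1) / 2 * S) ≤ I2 u w := by
    refine le_trans ?_ E2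
    have : (m - 1) / 2 * S ≤ (1 - m⁻¹) * S := mul_le_mul_of_nonneg_right hinv hS0
    linarith
  have hM2 : 0 ≤ 100 * M ^ 2 := by positivity
  have f4 : (1 / 5) * ((m - 1) / 2 * S) ≤ 100 * M ^ 2 * ((m - 1) * L) ^ 2 :=
    f3.trans (f1.trans (mul_le_mul_of_nonneg_left f2 hM2))
  have hm1' : 0 < m - 1 := by linarith
  have f5 : (m - 1) * S ≤ (m - 1) * (10 * (100 * M ^ 2) * L ^ 2 * (m - 1)) := by nlinarith
  exact le_of_mul_le_mul_left f5 hm1'

/-- there is no positive solution in a bounded domain star-shaped about the origin -/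
theorem no_solution (hstar : ∀ y ∈ Ω, ∀ t : ℝ, 0 < t → t ≤ 1 → t • y ∈ Ω)
    (hΩ : Ω ⊆ Metric.closedBall 0 2) (hopen : IsOpen Ω) (hne : Ω.Nonempty)
    {u : E → ℝ} {G : E → E} (h : H Ω u G)
    (hpos : ∀ᵐ x, x ∈ Ω → 0 < u x)
    (hw : ∀ ψ, T Ω ψ → ∫ x, (inner ℝ (G x) (gradient ψ x) + u x ^ 4 * ψ x
      - u x ^ 3 * ψ x / ‖x‖) = 0) : False := by
  have hpos' : ∀ᵐ x, 0 ≤ u x := by
    filter_upwards [hpos, h.ae_zero] with x h1 h2
    by_cases hx : x ∈ Ω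
    · exact (h1 hx).le
    · rw [h2 hx]
  obtain ⟨B, hB⟩ := main_ineq hstar hΩ h hpos' hw
  obtain ⟨C, hC⟩ := sobolev_H
  obtain ⟨u6, -, -, -⟩ := h.props hC
  have ju5 : Integrable (fun x => u x ^ 5) := int_pow h.1 u6 (by norm_num) (by norm_num)
  have h0 : (∫ x, u x ^ 5) ≤ 0 := by
    have hlim : Tendsto (fun m : ℝ => B * (m - 1)) (𝓝[>] 1) (𝓝 0) := by
      have : Continuous (fun m : ℝ => B * (m - 1)) := by fun_prop
      have := this.tendsto 1
      rw [sub_self, mul_zero] at this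
      exact this.mono_left nhdsWithin_le_nhds
    refine ge_of_tendsto hlim ?_
    have : Ioc (1 : ℝ) 2 ∈ 𝓝[>] (1 : ℝ) := Ioc_mem_nhdsGT (by norm_num)
    filter_upwards [this] with m hm
    exact hB m hm.1 hm.2
  have h1 : (∫ x, u x ^ 5) = 0 := by
    refine le_antisymm h0 (integral_nonneg_of_ae ?_)
    filter_upwards [hpos'] with x hx
    exact pow_nonneg hx 5
  rw [integral_eq_zero_iff_of_nonneg_ae ?_ ju5] at h1
  · have h2 : ∀ᵐ x, x ∉ Ω := by
      filter_upwards [h1, hpos] with x hx hx'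
      intro hxΩ
      have := hx' hxΩ
      have hx0 : u x ^ 5 = 0 := hx
      exact (pow_pos this 5).ne' hx0
    have h3 : volume Ω = 0 := by
      rw [ae_iff] at h2
      simpa using h2
    exact (hopen.measure_pos volume hne).ne' h3
  · filter_upwards [hpos'] with x hx
    exact pow_nonneg hx 5

end Pool.Agent.J4.H76.HS
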